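import Pool.Agent.R882.Metric
import Pool.Agent.R882.BlowUp

/-!
The blow-up of `F_0 = P1 × P1` in the two points `(0, ∞)` and `(∞, 0)` (the projective plane blown
up in three points) carries a Kähler metric of positive holomorphic sectional curvature.

The surface is `M = {abc = 1}` in `P1 × P1 × P1`. It has six charts with values in `ℂ²`, and in
each of them the metric is `i ∂ ∂̄ log P(|x|², |y|²)`, with the same polynomial `P` of 19 terms:
`P = ∑ c s^(X + 2) t^(X + Y + 2)` over the integers `X`, `Y` with `|X|, |Y|, |X + Y| ≤ 2`, where `c`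
is `57, 57, 13, 5` for `X² + X Y + Y² = 0, 1, 3, 4`.
-/

set_option autoImplicit false

open scoped Manifold ContDiff

namespace Pool.Agent.R882

/-- There is a compact connected complex surface which is the blow-up of `F_0 = P1 × P1` in two
different points, and which has a Kähler metric of positive holomorphic sectional curvature. -/
theorem _root_.Pool.Agent.Results.MP_3413ae_ag.BlownUpQuadric.result :
    IsManifold 𝓘(ℂ, ℂ × ℂ) ω F0 ∧
    ∃ (M : Type) (_ : TopologicalSpace M) (_ : ChartedSpace (ℂ × ℂ) M),
      T2Space M ∧ CompactSpace M ∧ ConnectedSpace M ∧ IsManifold 𝓘(ℂ, ℂ × ℂ) ω M ∧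
      (∃ (π : M → F0) (p q : F0), p ≠ q ∧ IsBlowUp π {p, q}) ∧
      ∃ g : KahlerMetric M, g.PositiveHSC := by
  refine ⟨inferInstance, X, inferInstance, inferInstance, inferInstance, inferInstance,
    inferInstance, inferInstance, ⟨pr, c1, c2, ?_, isBlowUp_pr⟩, metric, metric_pos⟩
  intro h
  have h1 : ((0 : ℂ) : P1) = OnePoint.infty := congrArg Prod.fst h
  exact zero_ne_infty h1

end Pool.Agent.R882
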